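import Pool.Agent.KS6_63.RSE2

/-!
Problem MP_88a444_an, question Q1, full answer in a stronger form: the implication holds for every normed
space with a nontrivial M-ideal (in particular for all `L₁(μ)`-preduals of dimension at least two, for
`ℓ₁`-preduals, for `C(K)` spaces) and for every set of operators containing those of rank at most two
(compact operators, all bounded operators, finite rank operators, ...).
-/

set_option autoImplicit false

open Set Filter Topology MeasureTheory KS6_63.RSE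

namespace Pool.Agent.Results.MP_88a444_an.MIdeals

universe u v w

/-- uniform convexity -/
def UnifConvex (Y : Type v) [NormedAddCommGroup Y] : Prop :=
  ∀ ε : ℝ, 0 < ε → ∃ δ : ℝ, 0 < δ ∧ δ < 1 ∧ ∀ y₁ y₂ : Y, ‖y₁‖ = 1 → ‖y₂‖ = 1 →
    1 - δ < ‖y₁ + y₂‖ / 2 → ‖y₁ - y₂‖ < ε

/-- `𝕜`-uniform convexity: for `𝕜 = ℂ` this is `ℂ`-uniform convexity -/
def KUnifConvex (𝕜 : Type) (Y : Type v) [RCLike 𝕜] [NormedAddCommGroup Y] [NormedSpace 𝕜 Y] : Prop :=
  ∀ ε : ℝ, 0 < ε → ∃ δ : ℝ, 0 < δ ∧ ∀ y₀ y₁ : Y, (∀ w : 𝕜, ‖w‖ = 1 → ‖y₀ + w • y₁‖ ≤ 1) →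
    ε < ‖y₁‖ → ‖y₀‖ < 1 - δ

/-- `X` has an M-ideal different from `0` and `X` -/
def HasMIdeal (𝕜 : Type) (X : Type u) [RCLike 𝕜] [NormedAddCommGroup X] [NormedSpace 𝕜 X] : Prop :=
  ∃ J : Submodule 𝕜 X, IsMIdeal J ∧ J ≠ ⊥ ∧ J ≠ ⊤

/-- `I` contains all operators of rank at most two -/
def ContainsRankTwo {𝕜 : Type} {X : Type u} {Y : Type v} [RCLike 𝕜] [NormedAddCommGroup X]
    [NormedSpace 𝕜 X] [NormedAddCommGroup Y] [NormedSpace 𝕜 Y] (I : Set (X →L[𝕜] Y)) : Prop :=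
  ∀ (T : X →L[𝕜] Y) (f g : StrongDual 𝕜 X) (a b : Y), (∀ x, T x = f x • a + g x • b) → T ∈ I

/-- the BPBp-RSE of the space of compact operators -/
def CompactBPBpRSE (𝕜 : Type) (X : Type u) (Y : Type v) [RCLike 𝕜] [NormedAddCommGroup X]
    [NormedSpace 𝕜 X] [NormedAddCommGroup Y] [NormedSpace 𝕜 Y] : Prop :=
  BPBpRSE {T : X →L[𝕜] Y | IsCompactOperator T}

section

variable {𝕜 : Type} {X : Type u} {Y : Type v} [RCLike 𝕜] [NormedAddCommGroup X] [NormedSpace 𝕜 X]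
  [NormedAddCommGroup Y] [NormedSpace 𝕜 Y]

lemma rankTwo_of {I : Set (X →L[𝕜] Y)} (hI : ContainsRankTwo I) (h : BPBpRSE I) :
    RankTwo 𝕜 X Y := by
  intro ε hε
  obtain ⟨η, h1, h2, h3⟩ := h ε hε
  refine ⟨η, h1, h2, ?_⟩
  rintro T x ⟨f, g, a, b, hT⟩ hT1 hx1 hTx
  obtain ⟨S, x₀, r1, -, r2, r3, r4, r5, r6⟩ := h3 T x (hI T f g a b hT) hT1 hx1 hTx
  exact ⟨S, x₀, r1, r2, r3, r4, r5, r6⟩

lemma compact_rankTwo : ContainsRankTwo {T : X →L[𝕜] Y | IsCompactOperator T} := by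
  intro T f g a b hT
  have : ProperSpace 𝕜 := inferInstance
  have k1 : ∀ (e : X →L[𝕜] 𝕜) (y : Y), IsCompactOperator (e.smulRight y) := fun e y =>
    (isCompactOperator_of_locallyCompactSpace_dom e).continuous_comp
      (g := fun s : 𝕜 => s • y) (by fun_prop)
  have h1 : T = f.smulRight a + g.smulRight b := by
    ext x
    rw [hT]
    rfl
  show IsCompactOperator T
  rw [h1]
  exact (k1 f a).add (k1 g b)

lemma main (hX : HasMIdeal 𝕜 X) {I : Set (X →L[𝕜] Y)} (hI : ContainsRankTwo I) (h : BPBpRSE I) :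
    KUnifConvex 𝕜 Y := by
  intro ε hε
  obtain ⟨J, h1, h2, h3⟩ := hX
  exact mideal_core h1 h2 h3 (rankTwo_of hI h) hε

end

lemma real_of {Y : Type v} [NormedAddCommGroup Y] [NormedSpace ℝ Y] (h : KUnifConvex ℝ Y) :
    UnifConvex Y := by
  intro ε hε
  obtain ⟨δ, h0, h1⟩ := h (ε / 4) (by positivity)
  refine ⟨min δ (1 / 2), by positivity, (min_le_right _ _).trans_lt (by norm_num),
    fun y₁ y₂ a1 a2 a3 => not_le.1 fun a4 => ?_⟩
  have := h1 ((1 / 2 : ℝ) • (y₁ + y₂)) ((1 / 2 : ℝ) • (y₁ - y₂)) (fun w hw => by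
    rcases (abs_eq zero_le_one).1 hw with rfl | rfl
    · refine le_of_eq (Eq.trans ?_ a1); congr 1; module
    · refine le_of_eq (Eq.trans ?_ a2); congr 1; module)
    (by rw [norm_smul, Real.norm_of_nonneg (by norm_num)]; linarith)
  rw [norm_smul, Real.norm_of_nonneg (by norm_num)] at this
  linarith [min_le_left δ (1 / 2)]

/-- `X` is a space such that `Y` is uniformly convex (real case), respectively `ℂ`-uniformly convex
(complex case, `KUnifConvex ℂ`) as soon as some set of operators from `X` to `Y` containing those of rank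
at most two has the BPBp-RSE. -/
def ForcesConvexity (𝕜 : Type) (X : Type u) [RCLike 𝕜] [NormedAddCommGroup X] [NormedSpace 𝕜 X] : Prop :=
  ∀ (Y : Type v) [NormedAddCommGroup Y] [NormedSpace 𝕜 Y] (I : Set (X →L[𝕜] Y)),
    ContainsRankTwo I → BPBpRSE I → KUnifConvex 𝕜 Y

/-- Main theorem.
(1) every space with a nontrivial M-ideal forces convexity;
(2) every `L₁(μ)`-predual of dimension at least two has a nontrivial M-ideal;
(3) question Q1: for an `ℓ₁`-predual `X`, if the compact operators from `X` to `Y` have the BPBp-RSE then `Y` is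
`ℂ`-uniformly convex (complex case) respectively uniformly convex (real case, with (4)). -/
theorem result :
    (∀ (𝕜 : Type) [RCLike 𝕜] (X : Type u) [NormedAddCommGroup X] [NormedSpace 𝕜 X],
      HasMIdeal 𝕜 X → ForcesConvexity.{u, v} 𝕜 X) ∧
    (∀ (𝕜 : Type) [RCLike 𝕜] (X : Type u) [NormedAddCommGroup X] [NormedSpace 𝕜 X]
      (α : Type w) [MeasurableSpace α] (μ : Measure α),
      Nonempty (StrongDual 𝕜 X ≃ₗᵢ[𝕜] Lp 𝕜 1 μ) → 2 ≤ Module.rank 𝕜 X → HasMIdeal 𝕜 X) ∧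
    (∀ (𝕜 : Type) [RCLike 𝕜] (X : Type u) (Y : Type v) [NormedAddCommGroup X] [NormedSpace 𝕜 X]
      [NormedAddCommGroup Y] [NormedSpace 𝕜 Y],
      Nonempty (StrongDual 𝕜 X ≃ₗᵢ[𝕜] lp (fun _ : ℕ => 𝕜) 1) → CompactBPBpRSE 𝕜 X Y →
        KUnifConvex 𝕜 Y) ∧
    (∀ (Y : Type v) [NormedAddCommGroup Y] [NormedSpace ℝ Y], KUnifConvex ℝ Y → UnifConvex Y) :=
  ⟨fun 𝕜 _ X _ _ hX Y _ _ I hI h => main hX hI h,
    fun 𝕜 _ X _ _ α _ μ ⟨Φ⟩ hd => mideal_of_L1 Φ hd,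
    fun 𝕜 _ X Y _ _ _ _ ⟨Φ⟩ h => main (mideal_of_l1 Φ) compact_rankTwo h,
    fun Y _ _ h => real_of h⟩

end Pool.Agent.Results.MP_88a444_an.MIdeals
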